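import Pool.Agent.KIL.Stmts
import Pool.Agent.Helper77_LQF.JAL

/-! Block KIL, row KJN: the jet of `aa`. -/

set_option autoImplicit false

open MeasureTheory ProbabilityTheory Function Filter

open scoped ENNReal BigOperators Topology NNReal ComplexOrder Matrix

noncomputable section

namespace Pool.Agent.KIL.H84

open Pool.Agent.LE.QF (HJ HM gG LL dC)
open Pool.Agent.LE.QF.H77 (jadd jmul jsum jtime jcomp jlin)

section cst

variable {ι : Type} [Fintype ι] [DecidableEq ι] {E : Type} [NormedAddCommGroup E]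
  [NormedSpace ℝ E]

theorem hj_cast {F F' : ℝ × (ι → ℝ) → E} {q : ℝ × (ι → ℝ)} {v v' : E} {g g' : ι → E} {l l' : E}
    (h : HJ F q v g l) (hF : F = F') (hv : v = v') (hg : g = g') (hl : l = l') :
    HJ F' q v' g' l' := by
  subst hF hv hg hl
  exact h

theorem jnsq {q : ℝ × (ι → ℝ)} {F : ℝ × (ι → ℝ) → ℂ} {v l : ℂ} {g : ι → ℂ}
    (h : HJ F q v g l) :
    HJ (fun r => ‖F r‖ ^ 2) q (‖v‖ ^ 2) (fun c => 2 * ((starRingEnd ℂ) v * g c).re)
      (2 * ((starRingEnd ℂ) v * l).re + ∑ c, ‖g c‖ ^ 2) := by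
  have h1 := jlin ((RCLike.conjCLE (K := ℂ)) : ℂ →L[ℝ] ℂ) h
  have h2 := jmul (𝕜 := ℂ) h1 h
  have h3 := jlin (RCLike.reCLM (K := ℂ)) h2
  have e1 : ∀ z : ℂ, ((starRingEnd ℂ) z * z).re = ‖z‖ ^ 2 := by
    intro z
    rw [← Complex.normSq_eq_conj_mul_self, Complex.ofReal_re, Complex.normSq_eq_norm_sq]
  have e2 : ∀ z w : ℂ, ((starRingEnd ℂ) w * z).re = ((starRingEnd ℂ) z * w).re := by
    intro z w
    simp only [Complex.mul_re, Complex.conj_re, Complex.conj_im]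
    ring
  refine hj_cast h3 ?_ ?_ ?_ ?_
  · funext r
    exact e1 (F r)
  · exact e1 v
  · funext c
    show ((starRingEnd ℂ) v * g c + (starRingEnd ℂ) (g c) * v).re = _
    rw [Complex.add_re, e2 v (g c)]
    ring
  · show ((starRingEnd ℂ) v * l + (starRingEnd ℂ) l * v +
      ∑ c, (starRingEnd ℂ) (g c) * g c).re = _
    rw [Complex.add_re, Complex.add_re, Complex.re_sum, e2 v l]
    simp only [e1]
    ring

end cst

variable {ι X : Type} [Fintype ι] [DecidableEq ι] [Fintype X] [DecidableEq X] {e : ι → X}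
  {q : ℝ × (ι → ℝ)} {Gm : ℝ × (ι → ℝ) → Matrix X X ℂ} {kp : ℝ → X → ℝ} {G : Matrix X X ℂ}
  {κ g : X → ℝ} {μ : ι → ℂ} {o : X}

theorem jnn (h : KJ e q Gm kp G κ g μ) (hΓ : 0 < gam κ G o) (v : X) :
    HJ (fun r => nn (kp r.1) (Gm r) o v) q (nn κ G o v) (fun c => -(gam κ G o * xx e κ G o v c))
      (gam κ G o * ((∑ c, ee e κ G o v c) + er e κ G μ o v -
        ∑ c, if e c = v then AA e κ g G o c else 0)) := by
  have h1 := jnsq (h.hG v o)
  have h2 := jtime (q := q) (fun t => kp t v) (h.hk v).1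
  have h3 := jmul (𝕜 := ℝ) h2 h1
  have hd : deriv (fun t => kp t v) q.1 * ‖G v o‖ ^ 2 =
      -(gam κ G o * ∑ c, if e c = v then AA e κ g G o c else 0) := by
    by_cases hv : v ∈ Set.range e
    · obtain ⟨c, rfl⟩ := hv
      rw [h.hd c, Finset.sum_eq_single c]
      · rw [if_pos rfl, AA]
        field_simp
      · intro b _ hb
        rw [if_neg fun hh => hb (h.inj hh)]
      · intro hh
        exact absurd (Finset.mem_univ c) hh
    · rw [h.hd0 v hv, Finset.sum_eq_zero]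
      · ring
      · intro c _
        rw [if_neg fun hh => hv ⟨c, hh⟩]
  refine hj_cast h3 rfl ?_ ?_ ?_
  · show kp q.1 v * ‖G v o‖ ^ 2 = κ v * ‖G v o‖ ^ 2
    rw [(h.hk v).2]
  · funext c
    show kp q.1 v * (2 * ((starRingEnd ℂ) (G v o) * (-(G v (e c) * G (e c) o))).re) +
      0 * ‖G v o‖ ^ 2 = _
    rw [(h.hk v).2, xx, mul_neg, Complex.neg_re]
    field_simp
    ring
  · show kp q.1 v * (2 * ((starRingEnd ℂ) (G v o) * ∑ c, G v (e c) * μ c * G (e c) o).re +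
      ∑ c, ‖-(G v (e c) * G (e c) o)‖ ^ 2) + deriv (fun t => kp t v) q.1 * ‖G v o‖ ^ 2 +
      ∑ c : ι, (0 : ℝ) * (2 * ((starRingEnd ℂ) (G v o) * (-(G v (e c) * G (e c) o))).re) = _
    have e1 : ∑ c, ee e κ G o v c = κ v * (∑ c, ‖G v (e c) * G (e c) o‖ ^ 2) / gam κ G o := by
      rw [Finset.mul_sum, Finset.sum_div]
      rfl
    simp only [zero_mul, Finset.sum_const_zero, norm_neg]
    rw [hd, (h.hk v).2, e1, er]
    field_simp
    ring

theorem jgam (h : KJ e q Gm kp G κ g μ) (he : ∀ c, e c ≠ o) (hΓ : 0 < gam κ G o) :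
    HJ (fun r => gam (kp r.1) (Gm r) o) q (gam κ G o) (fun c => -(gam κ G o * dd e κ G o c))
      (gam κ G o * ((∑ w ∈ Finset.univ.erase o, ((∑ c, ee e κ G o w c) + er e κ G μ o w)) -
        ∑ c, AA e κ g G o c)) := by
  have h1 := jsum (Finset.univ.erase o) _ _ _ _ fun v _ => jnn h hΓ v
  refine hj_cast h1 rfl rfl ?_ ?_
  · funext c
    rw [dd, Finset.sum_neg_distrib, Finset.mul_sum]
  · rw [← Finset.mul_sum, Finset.sum_sub_distrib]
    congr 2
    rw [Finset.sum_comm]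
    refine Finset.sum_congr rfl fun c _ => ?_
    rw [Finset.sum_ite_eq, if_pos (Finset.mem_erase.mpr ⟨he c, Finset.mem_univ _⟩)]

theorem jinv {F : ℝ × (ι → ℝ) → ℝ} {v l : ℝ} {g : ι → ℝ} (h : HJ F q v g l) (hv : v ≠ 0) :
    HJ (fun r => (F r)⁻¹) q v⁻¹ (fun c => -(v ^ 2)⁻¹ * g c)
      (-(v ^ 2)⁻¹ * l + (v ^ 3)⁻¹ * ∑ c, g c ^ 2) := by
  have h1 := jcomp h (fun t => t⁻¹) (contDiffAt_inv ℝ hv)
  have e1 : deriv (fun t : ℝ => t⁻¹) v = -(v ^ 2)⁻¹ := deriv_inv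
  have e2 : deriv (deriv fun t : ℝ => t⁻¹) v = 2 * (v ^ 3)⁻¹ := by
    have h2 : deriv (fun t : ℝ => t⁻¹) = fun t => -(t ^ 2)⁻¹ := by
      funext t
      exact deriv_inv
    rw [h2]
    have h3 : HasDerivAt (fun t : ℝ => -(t ^ 2)⁻¹) (-(-(2 * v) / (v ^ 2) ^ 2)) v := by
      have h4 : HasDerivAt (fun t : ℝ => t ^ 2) (2 * v) v := by
        have h5 := hasDerivAt_pow 2 v
        rw [show ((2 : ℕ) : ℝ) * v ^ (2 - 1) = 2 * v by norm_num] at h5
        exact h5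
      exact (h4.fun_inv (pow_ne_zero 2 hv)).neg
    rw [h3.deriv]
    field_simp
  refine hj_cast h1 rfl rfl ?_ ?_
  · funext c
    rw [e1]
  · rw [e1, e2]
    ring

theorem kjn : KjnStmt := by
  intro ι X _ _ _ _ e q Gm kp G κ g μ o h he hΓ v hv
  have h1 := jnn h hΓ v
  have h2 := jinv (jgam h he hΓ) hΓ.ne'
  have h3 := jmul (𝕜 := ℝ) h1 h2
  refine hj_cast h3 ?_ ?_ ?_ ?_
  · funext r
    rw [aa, div_eq_mul_inv]
  · rw [aa, div_eq_mul_inv]
  · funext c
    rw [da, aa]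
    field_simp
    ring
  · have e1 : ∑ c, -(gam κ G o * xx e κ G o v c) *
        (-(gam κ G o ^ 2)⁻¹ * -(gam κ G o * dd e κ G o c)) =
        -∑ c, xx e κ G o v c * dd e κ G o c := by
      rw [← Finset.sum_neg_distrib]
      refine Finset.sum_congr rfl fun c _ => ?_
      field_simp
    have e2 : ∑ c, (-(gam κ G o * dd e κ G o c)) ^ 2 =
        gam κ G o ^ 2 * ∑ c, dd e κ G o c ^ 2 := by
      rw [Finset.mul_sum]
      refine Finset.sum_congr rfl fun c _ => ?_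
      ring
    rw [e1, e2, la, aa]
    field_simp
    ring

end Pool.Agent.KIL.H84
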