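import Pool.Agent.KIL.StmtsB

/-!
# Tank KIL, row UEN: consequences of `ur < 1`
-/

set_option autoImplicit false

open scoped ENNReal BigOperators Topology NNReal Matrix

noncomputable section

namespace Pool.Agent.KIL.H84

open Pool.Agent.ANP (Cfg)

theorem lt_one_of_pow {a : ℝ} {j : ℕ} (h : a ^ j < 1) : a < 1 := by
  by_contra hn
  exact absurd (one_le_pow₀ (not_lt.1 hn)) (not_le.2 h)

theorem wt {X : Type} [DecidableEq X] (K D : Finset X) (f : X → ℝ) (t s : ℝ)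
    (hf : ∀ c, 0 ≤ f c) (hKD : Disjoint K D) (h : ∑ c ∈ K ∪ D, f c ≤ 1) (ht : 0 ≤ t) (hts : t ≤ s)
    (hs : 0 < s) : 1 ≤ Real.exp (1 - ∑ c ∈ K, f c - t / s * ∑ c ∈ D, f c) := by
  rw [Finset.sum_union hKD] at h
  have h1 : t / s ≤ 1 := (div_le_one hs).2 hts
  have h2 : 0 ≤ ∑ c ∈ D, f c := Finset.sum_nonneg fun c _ => hf c
  have h3 : t / s * ∑ c ∈ D, f c ≤ 1 * ∑ c ∈ D, f c := mul_le_mul_of_nonneg_right h1 h2
  exact Real.one_le_exp (by linarith)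

/-- row UEN -/
theorem uen : UenStmt := by
  intro X _ _ Y T₀ T P K D Gm kp q hok hrch hD hcard hrun hq0 hqs hur
  obtain ⟨hθ, hθK, hθm, hg₀, hκ₀, hδ, hj⟩ := hok.pos
  have hs : 0 < P.s := hok.sR.2
  have hk0 : ∀ x, 0 < P.k0 x := hok.kR.1
  have hw : ∀ x, 0 ≤ P.w x := by
    intro x
    unfold Pha.w
    split_ifs
    · exact (hk0 x).le
    · exact zero_le_one
  have hth : ∀ x, 0 < P.th x := by
    intro x
    unfold Pha.th
    split_ifs
    · exact hθK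
    · exact hθ
  have hKh : ∀ x c, 0 ≤ P.Kh x c := by
    intro x c
    unfold Pha.Kh
    have := mul_nonneg (hw x) (sq_nonneg ‖P.G0 x c‖)
    positivity
  have ha : ∀ x y c, 0 ≤ P.a x y c := by
    intro x y c
    unfold Pha.a
    have h1 := mul_nonneg (hKh x c) (hKh y c)
    have h2 := hth x
    positivity
  have hg₁ : ∀ x ∈ P.R, 0 ≤ P.g₁ := by
    intro x hx
    obtain ⟨h1, h2, -⟩ := hok.mb x hx
    linarith
  have ham : ∀ x ∈ P.R, ∀ c, 0 ≤ P.am x c := by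
    intro x hx c
    unfold Pha.am
    have h1 := hKh x c
    have h2 := hg₁ x hx
    have h3 := Real.sqrt_nonneg P.g₁
    have h4 := Real.sqrt_nonneg (P.Kh x c)
    have h5 : 0 ≤ 3 * (P.j : ℝ) ^ 2 * P.g₁ * P.Kh x c / P.θm ^ 2 :=
      div_nonneg (mul_nonneg (mul_nonneg (by positivity) h2) h1) (by positivity)
    have h6 : 0 ≤ 2 * (P.j : ℝ) * P.δ * Real.sqrt P.g₁ * Real.sqrt (P.Kh x c) / P.θm :=
      div_nonneg (mul_nonneg (mul_nonneg (by positivity) h3) h4) hθm.le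
    have h7 : 0 ≤ 4 * P.s := by positivity
    exact mul_nonneg h7 (add_nonneg h5 h6)
  have hdis : Disjoint K D := by
    rw [Finset.disjoint_left]
    intro x hx hxD
    exact (Finset.mem_sdiff.1 (hD hxD)).2 hx
  have hsub : K ∪ D ⊆ P.R := Finset.union_subset hrch.sub fun x hx => (Finset.mem_sdiff.1 (hD hx)).1
  obtain ⟨hca1, hca2⟩ := hok.ca (K ∪ D) hsub hcard
  have hpos := hrun.pos q.1 hq0 hqs
  -- the terms
  have hpm : ∀ x y, 0 ≤ pm (P.w x) (P.th x) (Gm q) P.G0 x y := by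
    intro x y
    unfold pm
    have h1 := mul_nonneg (hw x) (sq_nonneg ‖Gm q x y - P.G0 x y‖)
    have h2 := hth x
    exact div_nonneg h1 (by positivity)
  have hmm : ∀ x, 0 ≤ mm (kp q.1) P.θm (P.R \ (K ∪ D)) (Gm q) P.G0 x := by
    intro x
    unfold mm
    refine div_nonneg (Finset.sum_nonneg fun y _ => ?_) (by positivity)
    exact mul_nonneg (hpos y).1.le (sq_nonneg _)
  have ht1 : ∀ x y, 0 ≤ Real.exp (1 - ∑ c ∈ K, P.a x y c - q.1 / P.s * ∑ c ∈ D, P.a x y c) *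
      pm (P.w x) (P.th x) (Gm q) P.G0 x y ^ P.j := fun x y =>
    mul_nonneg (Real.exp_pos _).le (pow_nonneg (hpm x y) _)
  have ht2 : ∀ x, 0 ≤ Real.exp (1 - ∑ c ∈ K, P.am x c - q.1 / P.s * ∑ c ∈ D, P.am x c) *
      mm (kp q.1) P.θm (P.R \ (K ∪ D)) (Gm q) P.G0 x ^ P.j := fun x =>
    mul_nonneg (Real.exp_pos _).le (pow_nonneg (hmm x) _)
  have hs1 : 0 ≤ ∑ x ∈ (P.R \ K) ∪ P.Q, ∑ y ∈ P.R \ K,
      Real.exp (1 - ∑ c ∈ K, P.a x y c - q.1 / P.s * ∑ c ∈ D, P.a x y c) *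
      pm (P.w x) (P.th x) (Gm q) P.G0 x y ^ P.j :=
    Finset.sum_nonneg fun x _ => Finset.sum_nonneg fun y _ => ht1 x y
  have hs2 : 0 ≤ ∑ x ∈ P.R \ K,
      Real.exp (1 - ∑ c ∈ K, P.am x c - q.1 / P.s * ∑ c ∈ D, P.am x c) *
      mm (kp q.1) P.θm (P.R \ (K ∪ D)) (Gm q) P.G0 x ^ P.j :=
    Finset.sum_nonneg fun x _ => ht2 x
  have hur' : (∑ x ∈ (P.R \ K) ∪ P.Q, ∑ y ∈ P.R \ K,
      Real.exp (1 - ∑ c ∈ K, P.a x y c - q.1 / P.s * ∑ c ∈ D, P.a x y c) *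
      pm (P.w x) (P.th x) (Gm q) P.G0 x y ^ P.j) + ∑ x ∈ P.R \ K,
      Real.exp (1 - ∑ c ∈ K, P.am x c - q.1 / P.s * ∑ c ∈ D, P.am x c) *
      mm (kp q.1) P.θm (P.R \ (K ∪ D)) (Gm q) P.G0 x ^ P.j < 1 := hur
  have hRQ : ∀ x ∈ (P.R \ K) ∪ P.Q, x ∈ P.R ∪ P.Q := by
    intro x hx
    rcases Finset.mem_union.1 hx with h | h
    · exact Finset.mem_union_left _ (Finset.mem_sdiff.1 h).1
    · exact Finset.mem_union_right _ h
  have k1 : ∀ x ∈ (P.R \ K) ∪ P.Q, ∀ y ∈ P.R \ K,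
      P.w x * ‖Gm q x y - P.G0 x y‖ ^ 2 ≤ P.th x ^ 2 := by
    intro x hx y hy
    have h1 : Real.exp (1 - ∑ c ∈ K, P.a x y c - q.1 / P.s * ∑ c ∈ D, P.a x y c) *
        pm (P.w x) (P.th x) (Gm q) P.G0 x y ^ P.j ≤ ∑ y ∈ P.R \ K,
        Real.exp (1 - ∑ c ∈ K, P.a x y c - q.1 / P.s * ∑ c ∈ D, P.a x y c) *
        pm (P.w x) (P.th x) (Gm q) P.G0 x y ^ P.j :=
      Finset.single_le_sum (f := fun y =>
        Real.exp (1 - ∑ c ∈ K, P.a x y c - q.1 / P.s * ∑ c ∈ D, P.a x y c) *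
        pm (P.w x) (P.th x) (Gm q) P.G0 x y ^ P.j) (fun y _ => ht1 x y) hy
    have h2 := Finset.single_le_sum (f := fun x => ∑ y ∈ P.R \ K,
        Real.exp (1 - ∑ c ∈ K, P.a x y c - q.1 / P.s * ∑ c ∈ D, P.a x y c) *
        pm (P.w x) (P.th x) (Gm q) P.G0 x y ^ P.j)
      (fun x _ => Finset.sum_nonneg fun y _ => ht1 x y) hx
    have h3 := wt K D (fun c => P.a x y c) q.1 P.s (ha x y) hdis
      (hca1 x (hRQ x hx) y (Finset.mem_sdiff.1 hy).1) hq0 hqs hs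
    have h4 : pm (P.w x) (P.th x) (Gm q) P.G0 x y ^ P.j ≤
        Real.exp (1 - ∑ c ∈ K, P.a x y c - q.1 / P.s * ∑ c ∈ D, P.a x y c) *
        pm (P.w x) (P.th x) (Gm q) P.G0 x y ^ P.j :=
      le_mul_of_one_le_left (pow_nonneg (hpm x y) _) h3
    have h5 : pm (P.w x) (P.th x) (Gm q) P.G0 x y < 1 := by
      refine lt_one_of_pow (j := P.j) ?_
      have h6 := h4.trans (h1.trans h2)
      linarith
    have h7 : 0 < P.th x ^ 2 := by
      have := hth x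
      positivity
    exact ((div_lt_one h7).1 h5).le
  have k2 : ∀ x ∈ P.R \ K,
      ∑ y ∈ P.R \ (K ∪ D), kp q.1 y * ‖Gm q x y - P.G0 x y‖ ^ 2 ≤ P.θm ^ 2 := by
    intro x hx
    have h2 := Finset.single_le_sum (f := fun x =>
        Real.exp (1 - ∑ c ∈ K, P.am x c - q.1 / P.s * ∑ c ∈ D, P.am x c) *
        mm (kp q.1) P.θm (P.R \ (K ∪ D)) (Gm q) P.G0 x ^ P.j) (fun x _ => ht2 x) hx
    have hxR := (Finset.mem_sdiff.1 hx).1
    have h3 := wt K D (fun c => P.am x c) q.1 P.s (ham x hxR) hdis (hca2 x hxR) hq0 hqs hs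
    have h4 : mm (kp q.1) P.θm (P.R \ (K ∪ D)) (Gm q) P.G0 x ^ P.j ≤
        Real.exp (1 - ∑ c ∈ K, P.am x c - q.1 / P.s * ∑ c ∈ D, P.am x c) *
        mm (kp q.1) P.θm (P.R \ (K ∪ D)) (Gm q) P.G0 x ^ P.j :=
      le_mul_of_one_le_left (pow_nonneg (hmm x) _) h3
    have h5 : mm (kp q.1) P.θm (P.R \ (K ∪ D)) (Gm q) P.G0 x < 1 := by
      refine lt_one_of_pow (j := P.j) ?_
      have h6 := h4.trans h2
      linarith
    have h7 : 0 < P.θm ^ 2 := by positivity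
    exact ((div_lt_one h7).1 h5).le
  have kR : ∀ x ∈ P.R \ K, x ∉ P.Q := fun x hx hxQ =>
    Finset.disjoint_left.1 hok.QR hxQ (Finset.mem_sdiff.1 hx).1
  have r1 : ∀ x ∈ P.R \ K, ∀ y ∈ P.R \ K, ‖Gm q x y - P.G0 x y‖ ≤ P.θ := by
    intro x hx y hy
    have h1 := k1 x (Finset.mem_union_left _ hx) y hy
    have e1 : P.w x = 1 := if_neg (kR x hx)
    have e2 : P.th x = P.θ := if_neg (kR x hx)
    rw [e1, e2, one_mul] at h1
    exact abs_le_of_sq_le_sq' h1 hθ.le |>.2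
  refine ⟨r1, ?_, k2, ?_, ?_⟩
  · intro x hx y hy
    have h1 := k1 x (Finset.mem_union_right _ hx) y hy
    have e1 : P.w x = P.k0 x := if_pos hx
    have e2 : P.th x = P.θK := if_pos hx
    rw [e1, e2] at h1
    exact h1
  · intro x hx y hy
    have h1 := k1 x hx y hy
    have h2 : ‖Gm q x y‖ ^ 2 ≤ 2 * ‖P.G0 x y‖ ^ 2 + 2 * ‖Gm q x y - P.G0 x y‖ ^ 2 := by
      have h3 : ‖Gm q x y‖ ≤ ‖P.G0 x y‖ + ‖Gm q x y - P.G0 x y‖ := by
        have h4 := norm_add_le (P.G0 x y) (Gm q x y - P.G0 x y)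
        rwa [add_sub_cancel] at h4
      have h5 : ‖Gm q x y‖ ^ 2 ≤ (‖P.G0 x y‖ + ‖Gm q x y - P.G0 x y‖) ^ 2 :=
        pow_le_pow_left₀ (norm_nonneg _) h3 2
      nlinarith [sq_nonneg (‖P.G0 x y‖ - ‖Gm q x y - P.G0 x y‖)]
    have h3 := mul_le_mul_of_nonneg_left h2 (hw x)
    unfold Pha.Kh
    linarith
  · intro c hc
    have hcR := (Finset.mem_sdiff.1 (hD hc)).1
    obtain ⟨m1, m2, m3⟩ := hok.mb c hcR
    have h1 := r1 c (hD hc) c (hD hc)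
    have h2 : ‖Gm q c c - P.mb c‖ ≤ P.δ := by
      have h3 := norm_add_le (Gm q c c - P.G0 c c) (P.G0 c c - P.mb c)
      rw [sub_add_sub_cancel] at h3
      have h4 := hok.θδ.1
      linarith
    have h3 : |(Gm q c c).im - (P.mb c).im| ≤ P.δ := by
      have h4 := Complex.abs_im_le_norm (Gm q c c - P.mb c)
      rw [Complex.sub_im] at h4
      exact h4.trans h2
    refine ⟨h2, h3, ?_⟩
    have h4 := hrun.ward q hq0 hqs c c
    have h5 : ((∑ y, kp q.1 y * ‖Gm q c y‖ ^ 2 : ℝ) : ℂ) = ((Gm q c c).im : ℂ) := by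
      rw [← h4]
      push_cast
      refine Finset.sum_congr rfl fun y _ => ?_
      rw [Complex.mul_conj, Complex.normSq_eq_norm_sq]
      push_cast
      ring
    have h6 := Complex.ofReal_injective h5
    rw [h6]
    have h7 := (abs_le.1 h3).2
    linarith

end Pool.Agent.KIL.H84
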